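import Mathlib
import Pool.Agent.X318.DelannoyFour

/-!
# MP_c45f9b_nt: alternating sums of fourth powers of Delannoy polynomials modulo `p^3`
-/

set_option autoImplicit false

open Finset

namespace Pool.Agent.Results.MP_c45f9b_nt.DelannoyFourth

/-- The Delannoy polynomial `D_n(x) = ∑_{k=0}^n C(n,k) C(n+k,k) x^k` at an integer `x`. -/
def D (n : ℕ) (x : ℤ) : ℤ := ∑ k ∈ range (n + 1), ((n.choose k * (n + k).choose k : ℕ) : ℤ) * x ^ k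

/-- `S_p(x) = ∑_{k=0}^{p-1} (-1)^k (2k+1) D_k(x)^4`. -/
def S (p : ℕ) (x : ℤ) : ℤ := ∑ k ∈ range p, (-1) ^ k * (2 * (k : ℤ) + 1) * D k x ^ 4

/-- `T_p(x) = ∑_{k=0}^{(p-1)/2} (-1)^k C(2k,k)^2 (x^2+x)^k (2x+1)^(2k)`. -/
def T (p : ℕ) (x : ℤ) : ℤ := ∑ k ∈ range ((p - 1) / 2 + 1),
  (-1) ^ k * ((2 * k).choose k : ℤ) ^ 2 * (x ^ 2 + x) ^ k * (2 * x + 1) ^ (2 * k)

/-- For every integer `x` and every odd prime `p`, `S_p(x) ≡ p T_p(x) (mod p^3)`. -/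
theorem result : ∀ (x : ℤ) (p : ℕ), p.Prime → Odd p → S p x ≡ p * T p x [ZMOD (p : ℤ) ^ 3] := by
  intro x p hp hodd
  have h := Pool.Agent.X318.DelannoyFour.main hp hodd x
  exact (Int.modEq_iff_dvd.2 h).symm

end Pool.Agent.Results.MP_c45f9b_nt.DelannoyFourth
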